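import Pool.Agent.Helper2.LL.Perm
import Pool.Agent.Helper2.LL.Window
import Pool.Agent.Helper63.LL_H

/-!
# Task I: coherent-state lower bound for the kinetic energy
-/

open MeasureTheory Filter Topology
open scoped ENNReal ContDiff RealInnerProductSpace

noncomputable section

namespace Pool.Agent.Helper2.LL

open Pool.Agent.Helper1.LL

/-- I. `G` is a real smooth compactly supported window with `∫ G² = 1`, `ρ` the density. -/
theorem kinetic_lower {d : ℕ} (hd : 1 ≤ d) {n : ℕ} (Ψ : (Fin (n + 1) → Sp d) → ℂ)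
    (D : Fin (n + 1) → Fin d → (Fin (n + 1) → Sp d) → ℂ)
    (hΨ : MemLp Ψ 2 volume) (hΨ1 : ∫ x, ‖Ψ x‖ ^ 2 = 1)
    (anti : ∀ σ : Equiv.Perm (Fin (n + 1)),
      ∀ᵐ x, Ψ (x ∘ σ) = ((Equiv.Perm.sign σ : ℤ) : ℂ) * Ψ x)
    (hD : ∀ i a, MemLp (D i a) 2 volume)
    (hweak : ∀ i a, IsWeakDeriv Ψ (D i a) (Pi.single i (eb a)))
    (f : Sp d → ℝ) (_hf : Integrable f) (_hf0 : ∀ x, 0 ≤ f x)
    (hdens : ∀ᵐ x, (n + 1 : ℝ) * ∫ y : Fin n → Sp d, ‖Ψ (Fin.cons x y)‖ ^ 2 = (n + 1) * f x)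
    (g : Sp d → ℝ) (hg : ContDiff ℝ (⊤ : ℕ∞) g) (hgc : HasCompactSupport g)
    (hg1 : ∫ x, g x ^ 2 = 1) :
    ENNReal.ofReal (Kcl d * (n + 1 : ℝ) ^ (1 + 2 / d : ℝ)) *
        ∫⁻ y, (∫⁻ x, ENNReal.ofReal (g (x - y) ^ 2 * f x)) ^ (1 + 2 / d : ℝ) ≤
      ENNReal.ofReal (∑ i, ∑ a, ∫ x, ‖D i a x‖ ^ 2)
        + ENNReal.ofReal ((n + 1 : ℝ) * ∑ a, ∫ x, (fderiv ℝ g x (eb a)) ^ 2) := by
  classical
  have hmp := mp_cons (V := Sp d) n
  -- the function and its derivatives on the product space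
  have hU0 : MemLp (fun p : Sp d × (Fin n → Sp d) => Ψ (Fin.cons p.1 p.2)) 2 :=
    hΨ.comp_measurePreserving hmp
  have hW0 : ∀ a, MemLp (fun p : Sp d × (Fin n → Sp d) => D 0 a (Fin.cons p.1 p.2)) 2 :=
    fun a => (hD 0 a).comp_measurePreserving hmp
  obtain ⟨U, hUdef⟩ : ∃ U, U = hU0.1.mk _ := ⟨_, rfl⟩
  have hUm : Measurable U := by rw [hUdef]; exact hU0.1.stronglyMeasurable_mk.measurable
  have hUae : (fun p : Sp d × (Fin n → Sp d) => Ψ (Fin.cons p.1 p.2)) =ᵐ[volume] U := by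
    rw [hUdef]; exact hU0.1.ae_eq_mk
  clear hUdef
  have hWex : ∀ a, ∃ W : Sp d × (Fin n → Sp d) → ℂ, Measurable W ∧
      (fun p : Sp d × (Fin n → Sp d) => D 0 a (Fin.cons p.1 p.2)) =ᵐ[volume] W :=
    fun a => ⟨(hW0 a).1.mk _, (hW0 a).1.stronglyMeasurable_mk.measurable, (hW0 a).1.ae_eq_mk⟩
  choose W hWm hWae using hWex
  have hUL : MemLp U 2 := (memLp_congr_ae hUae).1 hU0
  have hWL : ∀ a, MemLp (W a) 2 := fun a => (memLp_congr_ae (hWae a)).1 (hW0 a)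
  have hU1 : ∫⁻ p, ‖U p‖ₑ ^ 2 = 1 := by
    rw [← ofReal_integral_norm_sq hUL, ← ENNReal.ofReal_one, ← hΨ1, integral_cons]
    congr 1
    refine integral_congr_ae ?_
    filter_upwards [hUae] with p hp
    rw [← hp]
  have hU1' : ∫⁻ p, ‖U p‖ₑ ^ 2 < ⊤ := by rw [hU1]; exact ENNReal.one_lt_top
  have hW1 : ∀ a, ∫⁻ p, ‖W a p‖ₑ ^ 2 = ENNReal.ofReal (∫ z, ‖D 0 a z‖ ^ 2) := by
    intro a
    rw [← ofReal_integral_norm_sq (hWL a), integral_cons]
    congr 1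
    refine integral_congr_ae ?_
    filter_upwards [hWae a] with p hp
    rw [← hp]
  have hW1' : ∀ a, ∫⁻ p, ‖W a p‖ₑ ^ 2 < ⊤ := by
    intro a; rw [hW1]; exact ENNReal.ofReal_lt_top
  -- weak derivative
  have hwk : ∀ a, ∀ η : Sp d → ℂ, ContDiff ℝ ∞ η → HasCompactSupport η →
      ∀ᵐ X : Fin n → Sp d, ∫ x, fderiv ℝ η x (EuclideanSpace.basisFun (Fin d) ℝ a) * U (x, X) =
        - ∫ x, η x * W a (x, X) := by
    intro a η hη hηc
    have e : (EuclideanSpace.basisFun (Fin d) ℝ a) = eb a := by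
      simp [eb]
    rw [e]
    exact weak_section Ψ (D 0 a) (eb a) (hweak 0 a) U (W a) hUm (hWm a) hU1' (hW1' a) hUae
      (hWae a) η hη hηc
  -- Pauli
  have hpauli : ∀ e : Sp d → ℂ, MemLp e 2 → ∫ x, ‖e x‖ ^ 2 ≤ 1 →
      ENNReal.ofReal (n + 1 : ℝ) * ∫⁻ X : Fin n → Sp d, ‖∫ x, star (e x) * U (x, X)‖ₑ ^ 2 ≤ 1 := by
    intro e he he1
    have h1 := Pool.Agent.Helper63.LL.pauli Ψ hΨ anti e he he1
    have h2 : ∀ᵐ X : Fin n → Sp d, ∫ x, star (e x) * Ψ (Fin.cons x X) =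
        ∫ x, star (e x) * U (x, X) := by
      filter_upwards [ae_sections hUae] with X hX
      refine integral_congr_ae ?_
      filter_upwards [hX] with x hx
      rw [hx]
    have h3 : ∫ y : Fin n → Sp d, ‖∫ x, star (e x) * Ψ (Fin.cons x y)‖ ^ 2 =
        ∫ X : Fin n → Sp d, ‖∫ x, star (e x) * U (x, X)‖ ^ 2 := by
      refine integral_congr_ae ?_
      filter_upwards [h2] with X hX
      rw [hX]
    rw [h3, hΨ1] at h1
    -- replace `e` by a measurable representative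
    obtain ⟨e', he'm, hee'⟩ : ∃ e' : Sp d → ℂ, Measurable e' ∧ e =ᵐ[volume] e' :=
      ⟨he.1.mk _, he.1.stronglyMeasurable_mk.measurable, he.1.ae_eq_mk⟩
    have h4 : ∀ X : Fin n → Sp d, ∫ x, star (e x) * U (x, X) = ∫ x, star (e' x) * U (x, X) := by
      intro X
      refine integral_congr_ae ?_
      filter_upwards [hee'] with x hx
      rw [hx]
    simp_rw [h4] at h1 ⊢
    have hcm : Measurable (fun x => star (e' x)) := continuous_star.measurable.comp he'm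
    have hm : Measurable (fun X : Fin n → Sp d => ∫ x, star (e' x) * U (x, X)) := by
      have h1 : Measurable (fun q : (Fin n → Sp d) × Sp d => star (e' q.2) * U (q.2, q.1)) :=
        (hcm.comp measurable_snd).mul (hUm.comp measurable_swap)
      exact (h1.stronglyMeasurable.integral_prod_right' (ν := (volume : Measure (Sp d)))).measurable
    have hc2 : ∫⁻ x, ‖star (e' x)‖ₑ ^ 2 < ⊤ := by
      have : MemLp (fun x => star (e' x)) 2 := ((memLp_congr_ae hee').1 he).star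
      exact (memLp_two_iff_lintegral hcm.aestronglyMeasurable).1 this
    have hL : MemLp (fun X : Fin n → Sp d => ∫ x, star (e' x) * U (x, X)) 2 := by
      rw [memLp_two_iff_lintegral hm.aestronglyMeasurable]
      calc ∫⁻ X : Fin n → Sp d, ‖∫ x, star (e' x) * U (x, X)‖ₑ ^ 2
          ≤ ∫⁻ X : Fin n → Sp d, (∫⁻ x, ‖star (e' x)‖ₑ ^ 2) * ∫⁻ x, ‖U (x, X)‖ₑ ^ 2 := by
            apply lintegral_mono
            intro X
            exact enorm_integral_mul_sq_le (fun x => star (e' x)) (fun x => U (x, X))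
              hcm.aemeasurable (hUm.comp (measurable_id.prodMk measurable_const)).aemeasurable
        _ = (∫⁻ x, ‖star (e' x)‖ₑ ^ 2) * ∫⁻ X : Fin n → Sp d, ∫⁻ x, ‖U (x, X)‖ₑ ^ 2 :=
            lintegral_const_mul' _ _ hc2.ne
        _ < ⊤ := by
            have := lintegral_prod_symm (μ := (volume : Measure (Sp d)))
              (ν := (volume : Measure (Fin n → Sp d))) (fun p => ‖U p‖ₑ ^ 2) (by fun_prop)
            rw [← this]
            exact ENNReal.mul_lt_top hc2 hU1'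
    rw [← ofReal_integral_norm_sq hL, ← ENNReal.ofReal_mul (by positivity), ← ENNReal.ofReal_one]
    exact ENNReal.ofReal_le_ofReal h1
  -- density
  have hden : ∀ᵐ x : Sp d, ∫⁻ X : Fin n → Sp d, ‖U (x, X)‖ₑ ^ 2 = ENNReal.ofReal (f x) := by
    have s1 : ∀ᵐ x : Sp d, ∀ᵐ X : Fin n → Sp d, Ψ (Fin.cons x X) = U (x, X) :=
      Measure.ae_ae_of_ae_prod hUae
    have s2 : ∀ᵐ x : Sp d, MemLp (fun X : Fin n → Sp d => U (x, X)) 2 := by
      have h1 : ∫⁻ x : Sp d, ∫⁻ X : Fin n → Sp d, ‖U (x, X)‖ₑ ^ 2 < ⊤ := by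
        have := lintegral_prod (μ := (volume : Measure (Sp d)))
          (ν := (volume : Measure (Fin n → Sp d))) (fun p => ‖U p‖ₑ ^ 2) (by fun_prop)
        rw [← this]
        exact hU1'
      have h2 : Measurable (fun x : Sp d => ∫⁻ X : Fin n → Sp d, ‖U (x, X)‖ₑ ^ 2) := by
        apply Measurable.lintegral_prod_right' (f := fun p : Sp d × (Fin n → Sp d) => ‖U p‖ₑ ^ 2)
        fun_prop
      filter_upwards [ae_lt_top h2 h1.ne] with x hx
      rw [memLp_two_iff_lintegral]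
      · exact hx
      · exact (hUm.comp (measurable_const.prodMk measurable_id)).aestronglyMeasurable
    filter_upwards [s1, s2, hdens] with x h1 h2 h3
    rw [← ofReal_integral_norm_sq h2]
    congr 1
    have h4 : ∫ X : Fin n → Sp d, ‖U (x, X)‖ ^ 2 = ∫ y : Fin n → Sp d, ‖Ψ (Fin.cons x y)‖ ^ 2 := by
      refine integral_congr_ae ?_
      filter_upwards [h1] with X hX
      rw [hX]
    rw [h4]
    have h5 : (n + 1 : ℝ) ≠ 0 := by positivity
    exact mul_left_cancel₀ h5 h3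
  -- apply the core theorem
  have hcore := core (Y := Fin n → Sp d) (EuclideanSpace.basisFun (Fin d) ℝ)
    (ENNReal.ofReal (n + 1 : ℝ)) ENNReal.ofReal_ne_top U hUm hU1 W hWm hW1' hwk hpauli
    (fun x => ENNReal.ofReal (f x)) hden _ (1 + 2 / d : ℝ)
    (fun m hm hm1 => Pool.Agent.Helper63.LL.bathtub d hd m hm hm1) g hg hgc hg1
  have hp : (0 : ℝ) ≤ 1 + 2 / d := by positivity
  have hL : ENNReal.ofReal (Kcl d * (n + 1 : ℝ) ^ (1 + 2 / d : ℝ)) *
        ∫⁻ y, (∫⁻ x, ENNReal.ofReal (g (x - y) ^ 2 * f x)) ^ (1 + 2 / d : ℝ) =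
      ENNReal.ofReal (4 * Real.pi ^ 2) * (ENNReal.ofReal (((d : ℝ) / (d + 2)) *
        (volume.real (Metric.ball (0 : Sp d) 1)) ^ (-(2 : ℝ) / d)) *
        ∫⁻ y, (ENNReal.ofReal (n + 1 : ℝ) * ∫⁻ x, ENNReal.ofReal (g (x - y) ^ 2) *
          ENNReal.ofReal (f x)) ^ (1 + 2 / d : ℝ)) := by
    have h1 : ∀ y : Sp d, (ENNReal.ofReal (n + 1 : ℝ) * ∫⁻ x, ENNReal.ofReal (g (x - y) ^ 2) *
          ENNReal.ofReal (f x)) ^ (1 + 2 / d : ℝ) =
        ENNReal.ofReal ((n + 1 : ℝ) ^ (1 + 2 / d : ℝ)) *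
          (∫⁻ x, ENNReal.ofReal (g (x - y) ^ 2 * f x)) ^ (1 + 2 / d : ℝ) := by
      intro y
      rw [ENNReal.mul_rpow_of_nonneg _ _ hp, ENNReal.ofReal_rpow_of_nonneg (by positivity) hp]
      congr 3
      funext x
      rw [ENNReal.ofReal_mul (sq_nonneg _)]
    simp_rw [h1]
    rw [lintegral_const_mul' _ _ ENNReal.ofReal_ne_top, ← mul_assoc, ← mul_assoc,
      ← ENNReal.ofReal_mul (by positivity), ← ENNReal.ofReal_mul (by positivity)]
    congr 2
    unfold Kcl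
    ring
  have hR : ENNReal.ofReal (∑ i, ∑ a, ∫ x, ‖D i a x‖ ^ 2)
        + ENNReal.ofReal ((n + 1 : ℝ) * ∑ a, ∫ x, (fderiv ℝ g x (eb a)) ^ 2) =
      ENNReal.ofReal (n + 1 : ℝ) * ∑ a, ((∫⁻ q, ‖W a q‖ₑ ^ 2) +
        ENNReal.ofReal (∫ x, (fderiv ℝ g x (EuclideanSpace.basisFun (Fin d) ℝ a)) ^ 2)) := by
    have e : ∀ a : Fin d, (EuclideanSpace.basisFun (Fin d) ℝ a) = eb a := by
      intro a; simp [eb]
    have h1 : ∀ i : Fin (n + 1), ∑ a, ∫ x, ‖D i a x‖ ^ 2 = ∑ a, ∫ x, ‖D 0 a x‖ ^ 2 := by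
      intro i
      refine Finset.sum_congr rfl fun a _ => ?_
      exact energy_perm Ψ (D 0 a) (D i a) (eb a) anti i (hD 0 a) (hD i a) (hweak 0 a) (hweak i a)
    simp_rw [h1, hW1, e]
    rw [Finset.sum_const, Finset.card_univ, Fintype.card_fin, nsmul_eq_mul, Finset.sum_add_distrib,
      mul_add]
    congr 1
    · rw [← ENNReal.ofReal_sum_of_nonneg (fun a _ => integral_nonneg fun z => by positivity),
        ← ENNReal.ofReal_mul (by positivity)]
      push_cast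
      rfl
    · rw [← ENNReal.ofReal_sum_of_nonneg (fun a _ => integral_nonneg fun z => by positivity),
        ← ENNReal.ofReal_mul (by positivity)]
  rw [hL, hR]
  exact hcore

/-- I2. Let the window concentrate. For fixed `f` the coherent-state expression is at least
`∫ f^{1+2/d} - ε`. -/
theorem window_limit {d : ℕ} (_hd : 1 ≤ d) (f : Sp d → ℝ) (hf : Integrable f)
    (hf0 : ∀ x, 0 ≤ f x) (L : ℝ≥0∞)
    (hL : L < ∫⁻ x, ENNReal.ofReal (f x) ^ (1 + 2 / d : ℝ)) :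
    ∃ g : Sp d → ℝ, ContDiff ℝ (⊤ : ℕ∞) g ∧ HasCompactSupport g ∧ ∫ x, g x ^ 2 = 1 ∧
      L < ∫⁻ y, (∫⁻ x, ENNReal.ofReal (g (x - y) ^ 2 * f x)) ^ (1 + 2 / d : ℝ) :=
  window_limit_aux f hf hf0 L _ (by positivity) hL

end Pool.Agent.Helper2.LL
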